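import Pool.Agent.H38.LR.T3997.Q120.GM.Basic

/-!
# Existence of random sets with independent elements, and the sieved models
-/

set_option autoImplicit false

namespace Pool.Agent.Q120.GM

open Finset MeasureTheory ProbabilityTheory

variable {ι : Type*} (p : ι → ℝ)

/-- The law of the indicator of the event that `i` is chosen. -/
noncomputable def coin (i : ι) : Measure Bool :=
  ENNReal.ofReal (max 0 (min 1 (p i))) • Measure.dirac true +
    ENNReal.ofReal (1 - max 0 (min 1 (p i))) • Measure.dirac false

instance (i : ι) : IsProbabilityMeasure (coin p i) := by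
  unfold coin
  have h1 : 0 ≤ max 0 (min 1 (p i)) := le_max_left _ _
  have h2 : max 0 (min 1 (p i)) ≤ 1 := max_le zero_le_one (min_le_left _ _)
  refine ⟨?_⟩
  rw [Measure.add_apply, Measure.smul_apply, Measure.smul_apply, measure_univ, measure_univ,
    smul_eq_mul, smul_eq_mul, mul_one, mul_one, ← ENNReal.ofReal_add h1 (by linarith)]
  simp

/-- The product measure. -/
noncomputable def prodMeasure : Measure (ι → Bool) := Measure.infinitePi (coin p)

instance : IsProbabilityMeasure (prodMeasure p) := by unfold prodMeasure; infer_instance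

/-- The random set. -/
def trueSet (ω : ι → Bool) : Set ι := {i | ω i = true}

theorem coin_true (i : ι) (h0 : 0 ≤ p i) (h1 : p i ≤ 1) : (coin p i {true}).toReal = p i := by
  unfold coin
  rw [min_eq_right h1, max_eq_right h0, Measure.add_apply, Measure.smul_apply, Measure.smul_apply,
    Measure.dirac_apply' _ MeasurableSet.of_discrete, Measure.dirac_apply' _ MeasurableSet.of_discrete]
  simp [ENNReal.toReal_ofReal h0]

theorem isModel (h0 : ∀ i, 0 ≤ p i) (h1 : ∀ i, p i ≤ 1) : IsModel (prodMeasure p) p (trueSet (ι := ι)) := by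
  have hm : ∀ i, MeasurableSet {ω : ι → Bool | i ∈ trueSet ω} := by
    intro i
    have h2 : {ω : ι → Bool | i ∈ trueSet ω} = (fun ω => ω i) ⁻¹' {true} := rfl
    rw [h2]
    exact (measurable_pi_apply i) (MeasurableSet.singleton _)
  have hpi : ∀ s : Finset ι, prodMeasure p (⋂ i ∈ s, {ω : ι → Bool | i ∈ trueSet ω}) = ∏ i ∈ s, coin p i {true} := by
    intro s
    have h2 : (⋂ i ∈ s, {ω : ι → Bool | i ∈ trueSet ω}) = Set.pi (s : Set ι) (fun _ => {true}) := by
      ext ω
      simp [trueSet, Set.mem_pi]
    rw [h2, prodMeasure, Measure.infinitePi_pi _ (fun _ _ => MeasurableSet.of_discrete)]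
  have hone : ∀ i, prodMeasure p {ω : ι → Bool | i ∈ trueSet ω} = coin p i {true} := by
    intro i
    have h2 := hpi {i}
    simpa using h2
  refine ⟨hm, ?_, fun i => ?_⟩
  · rw [iIndepSet_iff_meas_biInter hm]
    intro s
    rw [hpi]
    exact prod_congr rfl (fun i _ => (hone i).symm)
  · rw [Measure.real, hone]
    exact coin_true p i (h0 i) (h1 i)

/-- The probabilities of the sieved model: `n` is chosen with probability `(Q / φ(Q)) / log n` (at most `1`) if it is
coprime to `Q`, and never otherwise. -/
noncomputable def level (Q n : ℕ) : ℝ :=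
  if n.Coprime Q then min 1 ((Q : ℝ) / Nat.totient Q / Real.log n) else 0

theorem level_nonneg (Q n : ℕ) : 0 ≤ level Q n := by
  unfold level
  split_ifs with h
  · have := Real.log_natCast_nonneg n
    exact le_min zero_le_one (by positivity)
  · exact le_refl _

theorem level_le_one (Q n : ℕ) : level Q n ≤ 1 := by
  unfold level
  split_ifs with h
  · exact min_le_left _ _
  · exact zero_le_one

end Pool.Agent.Q120.GM
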