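import Pool.Agent.H38.LR.T3997.Q120.GM.APLaw

/-!
# Counting events along the integers: first and second moments
-/

set_option autoImplicit false

namespace Pool.Agent.Q120.GM

open Finset MeasureTheory ProbabilityTheory Filter Pool.Agent.Q120.AD
open scoped Topology

variable {Ω : Type*} [MeasurableSpace Ω] {μ : Measure Ω} [IsProbabilityMeasure μ]

omit [MeasurableSpace Ω] in
theorem num_mono {κ : Type*} {J J' : Finset κ} (h : J ⊆ J') (G : κ → Set Ω) (ω : Ω) : num J G ω ≤ num J' G ω := by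
  unfold num
  exact sum_le_sum_of_subset_of_nonneg h (fun j _ _ => Set.indicator_nonneg (fun _ _ => zero_le_one) _)

omit [MeasurableSpace Ω] in
theorem num_mono' {κ : Type*} {J : Finset κ} {G G' : κ → Set Ω} {ω : Ω} (h : ∀ j ∈ J, ω ∈ G j → ω ∈ G' j) :
    num J G ω ≤ num J G' ω := by
  unfold num
  refine sum_le_sum (fun j hj => ?_)
  by_cases h1 : ω ∈ G j
  · rw [Set.indicator_of_mem h1, Set.indicator_of_mem (h j hj h1)]
  · rw [Set.indicator_of_notMem h1]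
    exact Set.indicator_nonneg (fun _ _ => zero_le_one) _

omit [MeasurableSpace Ω] in
theorem num_card {κ : Type*} (J : Finset κ) (G : κ → Set Ω) (ω : Ω) [DecidablePred (fun j => ω ∈ G j)] :
    num J G ω = ((J.filter (fun j => ω ∈ G j)).card : ℝ) := by
  unfold num
  rw [card_filter]
  push_cast
  refine sum_congr rfl (fun j _ => ?_)
  by_cases h : ω ∈ G j
  · rw [Set.indicator_of_mem h, if_pos h]
  · rw [Set.indicator_of_notMem h, if_neg h]

theorem sum_rpow_le {s : ℝ} (hs : s ≤ 1) (x : ℕ) : ∑ d ∈ Icc 1 x, (d : ℝ) ^ (-s) ≤ (x : ℝ) ^ (1 - s) * (1 + Real.log x) := by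
  have h1 : ∀ d ∈ Icc 1 x, (d : ℝ) ^ (-s) ≤ (x : ℝ) ^ (1 - s) * (d : ℝ)⁻¹ := by
    intro d hd
    rw [mem_Icc] at hd
    have hd0 : (0 : ℝ) < d := by exact_mod_cast hd.1
    have hdx : (d : ℝ) ≤ x := by exact_mod_cast hd.2
    have e1 : (d : ℝ) ^ (-s) = (d : ℝ) ^ (1 - s) * (d : ℝ)⁻¹ := by
      nth_rewrite 3 [← Real.rpow_one (d : ℝ)]
      rw [← Real.rpow_neg hd0.le, ← Real.rpow_add hd0]
      congr 1
      ring
    rw [e1]
    exact mul_le_mul_of_nonneg_right (Real.rpow_le_rpow hd0.le hdx (by linarith)) (by positivity)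
  refine (sum_le_sum h1).trans ?_
  rw [← mul_sum]
  refine mul_le_mul_of_nonneg_left ?_ (by positivity)
  have h2 := harmonic_le_one_add_log x
  rw [harmonic_eq_sum_Icc] at h2
  push_cast at h2
  exact h2

theorem two_pow_tendsto : Tendsto (fun k : ℕ => 2 ^ k) atTop (atTop : Filter ℕ) :=
  tendsto_pow_atTop_atTop_of_one_lt (by norm_num)

theorem summable_two_pow {r : ℝ} (hr : 0 < r) : Summable (fun k : ℕ => ((2 : ℝ) ^ k) ^ (-r)) := by
  have h1 : ∀ k : ℕ, ((2 : ℝ) ^ k) ^ (-r) = ((2 : ℝ) ^ (-r)) ^ k := by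
    intro k
    rw [← Real.rpow_natCast, ← Real.rpow_mul (by norm_num), mul_comm, Real.rpow_mul (by norm_num), Real.rpow_natCast]
  simp_rw [h1]
  refine summable_geometric_of_lt_one (by positivity) ?_
  exact Real.rpow_lt_one_of_one_lt_of_neg (by norm_num) (by linarith)

/-- **Upper bound for the number of events.** -/
theorem upper_count {E : ℕ → Set Ω} (hE : ∀ d, MeasurableSet (E d)) {s : ℝ} (hs : s ≤ 1)
    (h : ∀ᶠ d : ℕ in atTop, μ.real (E d) ≤ (d : ℝ) ^ (-s)) {δ : ℝ} (hδ : 0 < δ) :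
    ∀ᵐ ω ∂μ, ∀ᶠ x : ℕ in atTop, num (range (x + 1)) E ω ≤ (x : ℝ) ^ (1 - s + δ) := by
  obtain ⟨N, hN⟩ := eventually_atTop.1 h
  have hsum : ∀ x : ℕ, 1 ≤ x → ∑ d ∈ range (x + 1), μ.real (E d) ≤ ((N : ℝ) + 1) + (x : ℝ) ^ (1 - s) * (1 + Real.log x) := by
    intro x hx
    have h1 : range (x + 1) ⊆ range (N + 1) ∪ (Icc 1 x).filter (fun d => N ≤ d) := by
      intro d hd
      rw [mem_range] at hd
      rw [mem_union, mem_range, mem_filter, mem_Icc]
      by_cases h2 : d < N + 1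
      · exact Or.inl h2
      · exact Or.inr ⟨⟨by omega, by omega⟩, by omega⟩
    refine (sum_le_sum_of_subset_of_nonneg h1 (fun _ _ _ => measureReal_nonneg)).trans ?_
    have h2 := sum_union_inter (s₁ := range (N + 1)) (s₂ := (Icc 1 x).filter (fun d => N ≤ d)) (f := fun d => μ.real (E d))
    have h3 : 0 ≤ ∑ d ∈ range (N + 1) ∩ (Icc 1 x).filter (fun d => N ≤ d), μ.real (E d) :=
      sum_nonneg (fun _ _ => measureReal_nonneg)
    refine le_trans (b := (∑ d ∈ range (N + 1), μ.real (E d)) + ∑ d ∈ (Icc 1 x).filter (fun d => N ≤ d), μ.real (E d))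
      (by linarith) ?_
    refine add_le_add ?_ ?_
    · refine (sum_le_sum (fun d _ => measureReal_le_one)).trans ?_
      rw [sum_const, card_range, nsmul_eq_mul, mul_one]
      push_cast
      exact le_refl _
    · refine (sum_le_sum (g := fun d : ℕ => (d : ℝ) ^ (-s)) (fun d hd => ?_)).trans
        ((sum_le_sum_of_subset_of_nonneg (filter_subset _ _) (fun d _ _ => by positivity)).trans (sum_rpow_le hs x))
      rw [mem_filter] at hd
      exact hN d hd.2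
  obtain ⟨B, hB⟩ : ∃ B : ℕ → Set Ω, B = fun (k : ℕ) =>
      {ω | ((2 : ℝ) ^ k) ^ (1 - s + δ / 2) ≤ num (range (2 ^ k + 1)) E ω} := ⟨_, rfl⟩
  have hbound : ∀ᶠ k : ℕ in atTop, μ.real (B k) ≤ ((2 : ℝ) ^ k) ^ (-(δ / 4)) := by
    have g1 := two_pow_tendsto.eventually (ev_power ((N : ℝ) + 3) 1 (show 0 < δ / 4 by linarith))
    have g2 := two_pow_tendsto.eventually (hl.eventually_ge_atTop 1)
    filter_upwards [g1, g2] with k h1 h2
    push_cast at h1 h2
    obtain ⟨x, hx⟩ : ∃ x : ℝ, x = (2 : ℝ) ^ k := ⟨_, rfl⟩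
    have hx1 : 1 ≤ x := by rw [hx]; exact one_le_pow₀ (by norm_num)
    have hx0 : 0 < x := by linarith
    have h3 := many (μ := μ) (range (2 ^ k + 1)) E (fun j _ => hE j) (t := x ^ (1 - s + δ / 2)) (by positivity)
    have h4 : μ.real (B k) ≤ (∑ d ∈ range (2 ^ k + 1), μ.real (E d)) / x ^ (1 - s + δ / 2) := by
      rw [hx] at h3 ⊢
      rw [hB]
      exact h3
    refine h4.trans ?_
    rw [← hx, div_le_iff₀ (by positivity), ← Real.rpow_add hx0]
    have h5 := hsum (2 ^ k) Nat.one_le_two_pow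
    push_cast at h5
    rw [← hx] at h5 h1 h2
    refine h5.trans ?_
    rw [pow_one] at h1
    have h6 : (1 : ℝ) ≤ x ^ (1 - s) := Real.one_le_rpow hx1 (by linarith)
    have h7 : x ^ (-(δ / 4) + (1 - s + δ / 2)) = x ^ (1 - s) * x ^ (δ / 4) := by
      rw [← Real.rpow_add hx0]
      congr 1
      ring
    rw [h7]
    have hN0 : (0 : ℝ) ≤ N := Nat.cast_nonneg N
    have h8 : ((N : ℝ) + 1) + x ^ (1 - s) * (1 + Real.log x) ≤ x ^ (1 - s) * ((N : ℝ) + 1 + 1 + Real.log x) := by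
      nlinarith
    refine h8.trans (mul_le_mul_of_nonneg_left ?_ (by positivity))
    nlinarith
  filter_upwards [bc (summable_two_pow (show 0 < δ / 4 by linarith)) hbound] with ω hω
  obtain ⟨K, hK⟩ := eventually_atTop.1 hω
  have g3 : ∀ᶠ x : ℕ in atTop, (2 : ℝ) ^ (1 - s + δ / 2) ≤ (x : ℝ) ^ (δ / 2) := by
    have := (tendsto_rpow_atTop (show 0 < δ / 2 by linarith)).comp tendsto_natCast_atTop_atTop
    exact this.eventually_ge_atTop _
  filter_upwards [g3, eventually_ge_atTop (2 ^ K)] with x h1 h2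
  have hx1 : 1 ≤ x := le_trans Nat.one_le_two_pow h2
  have hx0 : (0 : ℝ) < x := by exact_mod_cast hx1
  have h3 : 2 ^ (Nat.log 2 x) ≤ x := Nat.pow_log_le_self 2 (by omega)
  have h4 : x < 2 ^ (Nat.log 2 x + 1) := Nat.lt_pow_succ_log_self (by norm_num) x
  have h5 : K ≤ Nat.log 2 x + 1 := by
    have : K ≤ Nat.log 2 x := (Nat.le_log_iff_pow_le (by norm_num) (by omega)).2 h2
    omega
  have h6 := hK _ h5
  rw [hB] at h6
  have h7 : num (range (2 ^ (Nat.log 2 x + 1) + 1)) E ω < ((2 : ℝ) ^ (Nat.log 2 x + 1)) ^ (1 - s + δ / 2) := by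
    by_contra hcon
    push Not at hcon
    exact h6 hcon
  refine ((num_mono (range_subset_range.2 (by omega)) E ω).trans h7.le).trans ?_
  have h8 : (2 : ℝ) ^ (Nat.log 2 x + 1) ≤ 2 * x := by
    rw [pow_succ]
    have : ((2 ^ (Nat.log 2 x) : ℕ) : ℝ) ≤ x := by exact_mod_cast h3
    push_cast at this
    linarith
  refine (Real.rpow_le_rpow (by positivity) h8 (by linarith)).trans ?_
  rw [Real.mul_rpow (by norm_num) hx0.le]
  have h9 : (x : ℝ) ^ (1 - s + δ) = (x : ℝ) ^ (δ / 2) * (x : ℝ) ^ (1 - s + δ / 2) := by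
    rw [← Real.rpow_add hx0]
    congr 1
    ring
  rw [h9]
  exact mul_le_mul_of_nonneg_right h1 (by positivity)

/-- **Lower bound for the number of events.** -/
theorem lower_count {E : ℕ → Set Ω} (hE : ∀ d, MeasurableSet (E d)) {P : ℕ → Finset ℕ} {σ : ℝ} (hσ : 0 < σ)
    (hS : ∀ᶠ k : ℕ in atTop, ((2 : ℝ) ^ k) ^ σ ≤ ∑ d ∈ P k, μ.real (E d)) {r : ℝ} (hr : 0 < r)
    (hc : ∀ᶠ k : ℕ in atTop, ∀ i ∈ P k, ∀ j ∈ P k, i ≠ j →
      μ.real (E i ∩ E j) ≤ (1 + ((2 : ℝ) ^ k) ^ (-r)) * (μ.real (E i) * μ.real (E j))) {δ : ℝ} (hδ : 0 < δ) :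
    ∀ᵐ ω ∂μ, ∀ᶠ x : ℕ in atTop, (x : ℝ) ^ (σ - δ) ≤ num (P (Nat.log 2 x)) E ω := by
  obtain ⟨B, hB⟩ : ∃ B : ℕ → Set Ω, B = fun (k : ℕ) =>
      {ω | num (P k) E ω ≤ (∑ d ∈ P k, μ.real (E d)) / 2} := ⟨_, rfl⟩
  have hbound : ∀ᶠ k : ℕ in atTop, μ.real (B k) ≤ 4 * (((2 : ℝ) ^ k) ^ (-σ) + ((2 : ℝ) ^ k) ^ (-r)) := by
    filter_upwards [hS, hc] with k h1 h2
    have h3 : (0 : ℝ) < ((2 : ℝ) ^ k) ^ σ := by positivity
    have h4 := few (μ := μ) (P k) E (fun j _ => hE j) (η := ((2 : ℝ) ^ k) ^ (-r)) (by positivity) h2 (by linarith)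
    rw [hB]
    refine h4.trans ?_
    have h5 : 1 / (∑ d ∈ P k, μ.real (E d)) ≤ ((2 : ℝ) ^ k) ^ (-σ) := by
      rw [Real.rpow_neg (by positivity), ← one_div]
      exact one_div_le_one_div_of_le h3 h1
    linarith
  have hsm : Summable (fun k : ℕ => 4 * (((2 : ℝ) ^ k) ^ (-σ) + ((2 : ℝ) ^ k) ^ (-r))) :=
    ((summable_two_pow hσ).add (summable_two_pow hr)).mul_left 4
  filter_upwards [bc hsm hbound] with ω hω
  obtain ⟨K, hK⟩ := eventually_atTop.1 (hω.and hS)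
  have g3 : ∀ᶠ x : ℕ in atTop, 2 * (2 : ℝ) ^ σ ≤ (x : ℝ) ^ δ := by
    have := (tendsto_rpow_atTop hδ).comp tendsto_natCast_atTop_atTop
    exact this.eventually_ge_atTop _
  filter_upwards [g3, eventually_ge_atTop (2 ^ K)] with x h1 h2
  have hx1 : 1 ≤ x := le_trans Nat.one_le_two_pow h2
  have hx0 : (0 : ℝ) < x := by exact_mod_cast hx1
  have h4 : x < 2 ^ (Nat.log 2 x + 1) := Nat.lt_pow_succ_log_self (by norm_num) x
  have h5 : K ≤ Nat.log 2 x := (Nat.le_log_iff_pow_le (by norm_num) (by omega)).2 h2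
  obtain ⟨h6, h7⟩ := hK _ h5
  rw [hB] at h6
  have h8 : (∑ d ∈ P (Nat.log 2 x), μ.real (E d)) / 2 < num (P (Nat.log 2 x)) E ω := by
    by_contra hcon
    push Not at hcon
    exact h6 hcon
  refine le_trans ?_ h8.le
  have h9 : (x : ℝ) / 2 ≤ (2 : ℝ) ^ (Nat.log 2 x) := by
    have : (x : ℝ) ≤ ((2 ^ (Nat.log 2 x + 1) : ℕ) : ℝ) := by exact_mod_cast h4.le
    push_cast at this
    rw [pow_succ] at this
    linarith
  have h10 : ((x : ℝ) / 2) ^ σ ≤ ((2 : ℝ) ^ (Nat.log 2 x)) ^ σ := Real.rpow_le_rpow (by positivity) h9 hσ.le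
  rw [Real.div_rpow hx0.le (by norm_num)] at h10
  have h11 : (x : ℝ) ^ (σ - δ) ≤ (x : ℝ) ^ σ / 2 ^ σ / 2 := by
    rw [Real.rpow_sub hx0, div_div]
    exact div_le_div_of_nonneg_left (by positivity) (by positivity) (by linarith)
  linarith

end Pool.Agent.Q120.GM
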