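import Pool.Agent.H38.LR.T3997.Q120.GM.Level
import Pool.Agent.H38.LR.T3997.Q120.GM.Free
import Pool.Agent.H38.LR.T3997.Q120.GM.Gap

/-!
# Arithmetic progressions in the sieved models: densities and probabilities
-/

set_option autoImplicit false

namespace Pool.Agent.Q120.GM

open Finset MeasureTheory ProbabilityTheory Filter Pool.Agent.Q120.AD

/-- Counting with a periodic property. -/
theorem count_per {Q : ℕ} (hQ : 1 ≤ Q) (P : ℕ → Prop) [DecidablePred P] (hP : Function.Periodic P Q) (a w : ℕ) :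
    ((w : ℝ) - Q) * ((((range Q).filter P).card : ℝ) / Q) ≤ (((Ico a (a + w)).filter P).card : ℝ) ∧
      (((Ico a (a + w)).filter P).card : ℝ) ≤ ((w : ℝ) + Q) * ((((range Q).filter P).card : ℝ) / Q) := by
  obtain ⟨c, hc⟩ : ∃ c, c = ((range Q).filter P).card := ⟨_, rfl⟩
  rw [← hc]
  have hblock : ∀ a, ((Ico a (a + Q)).filter P).card = c := by
    intro a
    rw [Nat.filter_Ico_card_eq_of_periodic _ _ _ hP, Nat.count_eq_card_filter_range, hc]
  have hblocks : ∀ m, ((Ico a (a + m * Q)).filter P).card = m * c := by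
    intro m
    induction m with
    | zero => simp
    | succ m ih =>
      have h1 : Ico a (a + (m + 1) * Q) = Ico a (a + m * Q) ∪ Ico (a + m * Q) (a + m * Q + Q) := by
        rw [Ico_union_Ico_eq_Ico (by omega) (by omega)]
        congr 1
        ring
      rw [h1, filter_union, card_union_of_disjoint, ih, hblock]
      · ring
      · exact (Ico_disjoint_Ico_consecutive _ _ _).mono (filter_subset _ _) (filter_subset _ _)
  have h1 := Nat.div_mul_le_self w Q
  have h2 : w < (w / Q + 1) * Q := by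
    have := Nat.lt_div_mul_add (a := w) (b := Q) (by omega)
    linarith [this, show (w / Q + 1) * Q = w / Q * Q + Q by ring]
  have b1 : w / Q * c ≤ ((Ico a (a + w)).filter P).card := by
    rw [← hblocks]
    apply card_le_card
    apply filter_subset_filter
    exact Ico_subset_Ico_right (by omega)
  have b2 : ((Ico a (a + w)).filter P).card ≤ (w / Q + 1) * c := by
    rw [← hblocks]
    apply card_le_card
    apply filter_subset_filter
    exact Ico_subset_Ico_right (by omega)
  have hQ0 : (0 : ℝ) < Q := by exact_mod_cast hQ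
  have h1' : ((w / Q : ℕ) : ℝ) * c ≤ (((Ico a (a + w)).filter P).card : ℝ) := by exact_mod_cast b1
  have h2' : (((Ico a (a + w)).filter P).card : ℝ) ≤ (((w / Q : ℕ) : ℝ) + 1) * c := by exact_mod_cast b2
  have h3 : ((w / Q : ℕ) : ℝ) ≤ w / Q := Nat.cast_div_le
  have h4 : (w : ℝ) / Q < ((w / Q : ℕ) : ℝ) + 1 := by
    rw [div_lt_iff₀ hQ0]
    have := Nat.lt_div_mul_add (a := w) (b := Q) (by omega)
    have h5 : (w : ℝ) < ((w / Q * Q + Q : ℕ) : ℝ) := by exact_mod_cast this
    push_cast at h5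
    linarith
  have hc0 : (0 : ℝ) ≤ c := Nat.cast_nonneg _
  constructor
  · refine le_trans ?_ h1'
    have h5 : ((w : ℝ) - Q) * ((c : ℝ) / Q) = ((w : ℝ) / Q - 1) * c := by field_simp
    rw [h5]
    apply mul_le_mul_of_nonneg_right _ hc0
    linarith
  · refine h2'.trans ?_
    have h5 : ((w : ℝ) + Q) * ((c : ℝ) / Q) = ((w : ℝ) / Q + 1) * c := by field_simp
    rw [h5]
    apply mul_le_mul_of_nonneg_right _ hc0
    linarith

/-- The number of residues `m` modulo `Q` for which `a + d m` is coprime to `Q`. -/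
def ca (Q a d : ℕ) : ℕ := ((range Q).filter (fun m => (a + d * m).Coprime Q)).card

/-- The density of the class `a` modulo `d`: its elements are chosen `dens Q a d` times as often as all integers. -/
noncomputable def dens (Q a d : ℕ) : ℝ := (ca Q a d : ℝ) / Nat.totient Q

theorem per_ap (Q a d : ℕ) : Function.Periodic (fun m => (a + d * m).Coprime Q) Q := by
  intro m
  show (a + d * (m + Q)).Coprime Q = (a + d * m).Coprime Q
  rw [eq_iff_iff, show a + d * (m + Q) = (a + d * m) + d * Q by ring, Nat.coprime_add_mul_right_left]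

theorem dens_eq {Q : ℕ} (hQ : 1 ≤ Q) (a d : ℕ) : dens Q a d = (ca Q a d : ℝ) / Q * qq Q := by
  have h1 : (0 : ℝ) < Q := by exact_mod_cast hQ
  have h2 : (0 : ℝ) < Nat.totient Q := by exact_mod_cast Nat.totient_pos.2 hQ
  unfold dens qq
  field_simp

theorem dens_le {Q : ℕ} (hQ : 1 ≤ Q) (a d : ℕ) : dens Q a d ≤ qq Q := by
  have h1 : (0 : ℝ) < Q := by exact_mod_cast hQ
  have h3 : (ca Q a d : ℝ) ≤ Q := by
    have : ca Q a d ≤ Q := by
      unfold ca
      exact (card_filter_le _ _).trans (le_of_eq (card_range Q))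
    exact_mod_cast this
  rw [dens_eq hQ]
  have h4 : (ca Q a d : ℝ) / Q ≤ 1 := by rw [div_le_one h1]; exact h3
  have := (qq_pos hQ).le
  nlinarith

theorem le_dens {Q : ℕ} (hQ : 1 ≤ Q) {a d : ℕ} (h : 0 < dens Q a d) : 1 / (Q : ℝ) ≤ dens Q a d := by
  have h1 : (0 : ℝ) < Q := by exact_mod_cast hQ
  have h2 : (0 : ℝ) < Nat.totient Q := by exact_mod_cast Nat.totient_pos.2 hQ
  have h5 : (Nat.totient Q : ℝ) ≤ Q := by exact_mod_cast Nat.totient_le Q
  have h3 : 1 ≤ ca Q a d := by
    by_contra hcon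
    have h4 : ca Q a d = 0 := by omega
    unfold dens at h
    rw [h4] at h
    simp at h
  have h4 : (1 : ℝ) ≤ ca Q a d := by exact_mod_cast h3
  unfold dens
  rw [div_le_div_iff₀ h1 h2]
  nlinarith

/-- The class of `a` modulo `d`, from `a` to `a + d M`. -/
def cls (a d M : ℕ) : Finset ℕ := (Ico 0 (M + 1)).image (fun m => a + d * m)

theorem mem_cls {a d M n : ℕ} : n ∈ cls a d M ↔ ∃ m, m ≤ M ∧ n = a + d * m := by
  unfold cls
  rw [mem_image]
  constructor
  · rintro ⟨m, hm, h⟩
    rw [mem_Ico] at hm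
    exact ⟨m, by omega, h.symm⟩
  · rintro ⟨m, hm, h⟩
    exact ⟨m, mem_Ico.2 ⟨by omega, by omega⟩, h.symm⟩

theorem prod_cls {a d M : ℕ} (hd : 1 ≤ d) (f : ℕ → ℝ) : ∏ n ∈ cls a d M, f n = ∏ m ∈ Ico 0 (M + 1), f (a + d * m) := by
  unfold cls
  apply prod_image
  intro x _ y _ hxy
  have h1 : a + d * x = a + d * y := hxy
  exact Nat.eq_of_mul_eq_mul_left hd (by omega)

variable {Ω : Type*} [MeasurableSpace Ω] {μ : Measure Ω} [IsProbabilityMeasure μ] {A : Ω → Set ℕ} {Q : ℕ}

/-- **Upper bound for the probability that a class is free.** -/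
theorem free_le (hA : IsModel μ (level Q) A) (hQ : 1 ≤ Q) {a d M : ℕ} (ha : a < d)
    (hd : qq Q ≤ Real.log d) (hd1 : 0 < Real.log (d : ℝ)) :
    μ.real (free A (cls a d M)) ≤
      Real.exp (-(((M : ℝ) - Q) * dens Q a d / Real.log (d * ((M : ℝ) + 1)))) := by
  rw [real_free hA, prod_cls (by omega)]
  have hd0 : (0 : ℝ) < d := by
    have : 0 < d := by omega
    exact_mod_cast this
  have hq := qq_pos hQ
  have h1 : ∏ m ∈ Ico 0 (M + 1), (1 - level Q (a + d * m)) ≤
      Real.exp (-∑ m ∈ Ico 1 (1 + M), level Q (a + d * m)) := by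
    rw [← sum_neg_distrib, Real.exp_sum]
    have h2 : ∏ m ∈ Ico 0 (M + 1), (1 - level Q (a + d * m)) ≤ ∏ m ∈ Ico 1 (1 + M), (1 - level Q (a + d * m)) := by
      have h3 : Ico 0 (M + 1) = insert 0 (Ico 1 (1 + M)) := by
        ext m
        rw [mem_insert, mem_Ico, mem_Ico]
        omega
      rw [h3, prod_insert (by simp)]
      have h4 : 0 ≤ ∏ m ∈ Ico 1 (1 + M), (1 - level Q (a + d * m)) :=
        prod_nonneg (fun m _ => by linarith [level_le_one Q (a + d * m)])
      have h5 := level_nonneg Q (a + d * 0)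
      nlinarith
    refine h2.trans (Finset.prod_le_prod (fun m _ => by linarith [level_le_one Q (a + d * m)]) (fun m _ => ?_))
    have := Real.add_one_le_exp (-level Q (a + d * m))
    linarith
  refine h1.trans ?_
  rw [Real.exp_le_exp, neg_le_neg_iff]
  -- the sum
  obtain ⟨y, hy⟩ : ∃ y : ℝ, y = d * ((M : ℝ) + 1) := ⟨_, rfl⟩
  rw [← hy]
  have hdy : (d : ℝ) ≤ y := by
    rw [hy]
    have : (0 : ℝ) ≤ M := Nat.cast_nonneg M
    nlinarith
  have hly : 0 < Real.log y := lt_of_lt_of_le hd1 (Real.log_le_log hd0 hdy)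
  have h2 : ∀ m ∈ (Ico 1 (1 + M)).filter (fun m => (a + d * m).Coprime Q), qq Q / Real.log y ≤ level Q (a + d * m) := by
    intro m hm
    rw [mem_filter, mem_Ico] at hm
    refine le_level hd hd1 hd0 ?_ ?_ hm.2
    · have : d * 1 ≤ d * m := Nat.mul_le_mul_left d hm.1.1
      exact_mod_cast (by omega : d ≤ a + d * m)
    · rw [hy]
      have e1 : d * m ≤ d * M := Nat.mul_le_mul_left d (by omega)
      have e2 : a + d * m ≤ d * (M + 1) := by
        have : d * (M + 1) = d * M + d := by ring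
        omega
      exact_mod_cast e2
  have h3 : ∑ m ∈ (Ico 1 (1 + M)).filter (fun m => (a + d * m).Coprime Q), level Q (a + d * m) ≤
      ∑ m ∈ Ico 1 (1 + M), level Q (a + d * m) :=
    sum_le_sum_of_subset_of_nonneg (filter_subset _ _) (fun m _ _ => level_nonneg _ _)
  refine le_trans ?_ ((sum_le_sum h2).trans h3)
  rw [sum_const, nsmul_eq_mul]
  have h4 := (count_per hQ _ (per_ap Q a d) 1 M).1
  have h5 : ((M : ℝ) - Q) * ((ca Q a d : ℝ) / Q) * (qq Q / Real.log y) ≤
      (((Ico 1 (1 + M)).filter (fun m => (a + d * m).Coprime Q)).card : ℝ) * (qq Q / Real.log y) :=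
    mul_le_mul_of_nonneg_right h4 (by positivity)
  refine le_trans (le_of_eq ?_) h5
  rw [dens_eq hQ]
  field_simp

/-- **Lower bound for the probability that a class is free.** -/
theorem le_free (hA : IsModel μ (level Q) A) (hQ : 1 ≤ Q) {a d M : ℕ} {x : ℝ} (hx0 : 0 < x) (hxa : x ≤ a) (hd : 1 ≤ d)
    (hx1 : 2 * qq Q ≤ Real.log x) :
    Real.exp (-((1 + 2 * (qq Q / Real.log x)) * (((M : ℝ) + 1 + Q) * dens Q a d / Real.log x))) ≤
      μ.real (free A (cls a d M)) := by
  rw [real_free hA, prod_cls hd]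
  have hq := qq_pos hQ
  have hlx : 0 < Real.log x := by linarith
  have hlev : ∀ m, level Q (a + d * m) ≤ qq Q / Real.log x := by
    intro m
    refine level_le hlx hx0 ?_
    push_cast
    have : (0 : ℝ) ≤ (d : ℝ) * m := by positivity
    linarith
  have hhalf : qq Q / Real.log x ≤ 1 / 2 := by
    rw [div_le_iff₀ hlx]
    linarith
  have h1 : Real.exp (-((1 + 2 * (qq Q / Real.log x)) * ∑ m ∈ Ico 0 (M + 1), level Q (a + d * m))) ≤
      ∏ m ∈ Ico 0 (M + 1), (1 - level Q (a + d * m)) := by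
    rw [mul_sum, ← sum_neg_distrib, Real.exp_sum]
    apply Finset.prod_le_prod (fun n _ => (Real.exp_pos _).le)
    intro m _
    have h6 := level_nonneg Q (a + d * m)
    have h7 := hlev m
    refine le_trans ?_ (Pool.Agent.Q120.TD.one_sub_ge h6 (h7.trans hhalf))
    rw [Real.exp_le_exp]
    nlinarith
  refine le_trans ?_ h1
  rw [Real.exp_le_exp, neg_le_neg_iff]
  apply mul_le_mul_of_nonneg_left _ (by positivity)
  have h2 : ∑ m ∈ Ico 0 (M + 1), level Q (a + d * m) =
      ∑ m ∈ (Ico 0 (M + 1)).filter (fun m => (a + d * m).Coprime Q), level Q (a + d * m) := by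
    refine (sum_filter_of_ne (fun m _ hne => ?_)).symm
    by_contra hcon
    apply hne
    unfold level
    rw [if_neg hcon]
  rw [h2]
  refine (sum_le_sum (fun m _ => hlev m)).trans ?_
  rw [sum_const, nsmul_eq_mul]
  have h4 := (count_per hQ _ (per_ap Q a d) 0 (M + 1)).2
  rw [zero_add] at h4
  have h5 := mul_le_mul_of_nonneg_right h4 (show 0 ≤ qq Q / Real.log x by positivity)
  refine h5.trans (le_of_eq ?_)
  push_cast
  rw [dens_eq hQ]
  unfold ca
  field_simp

/-- For a modulus coprime to `Q` all classes have density one. -/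
theorem dens_one {Q : ℕ} (hQ : 1 ≤ Q) {a d : ℕ} (hd : d.Coprime Q) : dens Q a d = 1 := by
  have h1 : ca Q a d = Nat.totient Q := by
    rw [Nat.totient_eq_card_coprime]
    unfold ca
    have hinj : Set.InjOn (fun m => (a + d * m) % Q) (range Q : Finset ℕ) := by
      intro x hx y hy hxy
      rw [coe_range, Set.mem_Iio] at hx hy
      have h2 : (a + d * x) ≡ (a + d * y) [MOD Q] := hxy
      have h3 : d * x ≡ d * y [MOD Q] := Nat.ModEq.add_left_cancel' a h2
      have h4 : x ≡ y [MOD Q] := Nat.ModEq.cancel_left_of_coprime (by rw [Nat.gcd_comm]; exact hd) h3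
      unfold Nat.ModEq at h4
      rw [Nat.mod_eq_of_lt hx, Nat.mod_eq_of_lt hy] at h4
      exact h4
    have himg : (range Q).image (fun m => (a + d * m) % Q) = range Q := by
      apply eq_of_subset_of_card_le
      · intro n hn
        rw [mem_image] at hn
        obtain ⟨m, _, rfl⟩ := hn
        rw [mem_range]
        exact Nat.mod_lt _ (by omega)
      · rw [card_image_of_injOn hinj]
    have h2 : ((range Q).filter (fun m => (a + d * m).Coprime Q)).image (fun m => (a + d * m) % Q) =
        (range Q).filter (fun m => Q.Coprime m) := by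
      ext n
      rw [mem_image, mem_filter]
      constructor
      · rintro ⟨m, hm, rfl⟩
        rw [mem_filter] at hm
        refine ⟨mem_range.2 (Nat.mod_lt _ (by omega)), ?_⟩
        rw [Nat.coprime_comm]
        have h3 : Nat.gcd ((a + d * m) % Q) Q = Nat.gcd (a + d * m) Q := (Nat.mod_modEq _ _).gcd_eq
        rw [Nat.coprime_iff_gcd_eq_one, h3]
        exact hm.2
      · rintro ⟨h3, h4⟩
        rw [← himg, mem_image] at h3
        obtain ⟨m, hm, rfl⟩ := h3
        refine ⟨m, mem_filter.2 ⟨hm, ?_⟩, rfl⟩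
        have h3 : Nat.gcd ((a + d * m) % Q) Q = Nat.gcd (a + d * m) Q := (Nat.mod_modEq _ _).gcd_eq
        rw [Nat.coprime_comm, Nat.coprime_iff_gcd_eq_one, h3] at h4
        exact h4
    rw [← h2, card_image_of_injOn]
    exact hinj.mono (by
      intro m hm
      rw [mem_coe, mem_filter] at hm
      exact hm.1)
  have h2 : (0 : ℝ) < Nat.totient Q := by exact_mod_cast Nat.totient_pos.2 hQ
  unfold dens
  rw [h1]
  exact div_self h2.ne'

end Pool.Agent.Q120.GM
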