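import Pool.Agent.H38.LR.T3997.Q120.GM.AP

/-!
# Arithmetic progressions in the sieved models: the least elements of the classes
-/

set_option autoImplicit false

namespace Pool.Agent.Q120.GM

open Finset MeasureTheory ProbabilityTheory Filter Pool.Agent.Q120.AD
open scoped Topology

variable {Ω : Type*} [MeasurableSpace Ω] {μ : Measure Ω} [IsProbabilityMeasure μ] {A : Ω → Set ℕ} {Q : ℕ}

/-- The number of terms. -/
noncomputable def mc (κ : ℝ) (Q a d : ℕ) : ℕ := ⌊κ * Real.log d ^ 2 / dens Q a d⌋₊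

theorem mc_le {κ : ℝ} (hκ : 0 ≤ κ) (hQ : 1 ≤ Q) {a d : ℕ} (h : 0 < dens Q a d) :
    (mc κ Q a d : ℝ) ≤ κ * Q * Real.log d ^ 2 := by
  have h1 : (mc κ Q a d : ℝ) ≤ κ * Real.log d ^ 2 / dens Q a d := Nat.floor_le (by positivity)
  refine h1.trans ?_
  rw [div_le_iff₀ h]
  have h2 := le_dens hQ h
  have hQ0 : (0 : ℝ) < Q := by exact_mod_cast hQ
  rw [div_le_iff₀ hQ0] at h2
  have h3 : 0 ≤ κ * Real.log (d : ℝ) ^ 2 := by positivity
  calc κ * Real.log (d : ℝ) ^ 2 = κ * Real.log d ^ 2 * 1 := (mul_one _).symm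
    _ ≤ κ * Real.log d ^ 2 * (dens Q a d * Q) := mul_le_mul_of_nonneg_left h2 h3
    _ = κ * Q * Real.log d ^ 2 * dens Q a d := by ring

theorem prob_le (hA : IsModel μ (level Q) A) (hQ : 1 ≤ Q) {c δ : ℝ} (hc : 0 < c) (hδ : 0 < δ) (hδc : δ < c) :
    ∀ᶠ d : ℕ in atTop, ∀ a : ℕ, a < d → 0 < dens Q a d →
      μ.real (free A (cls a d (mc c Q a d))) ≤ (d : ℝ) ^ (-(c - δ)) := by
  have hq := qq_pos hQ
  have hQ0 : (0 : ℝ) < Q := by exact_mod_cast hQ
  obtain ⟨θ, hθ⟩ : ∃ θ, θ = δ / (4 * c) := ⟨_, rfl⟩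
  have hθ0 : 0 < θ := by rw [hθ]; positivity
  have hθc : c * θ = δ / 4 := by rw [hθ]; field_simp
  filter_upwards [ev_power (c * Q + 1) 2 hθ0, hl.eventually_ge_atTop (qq Q + 1 + (1 + (Q : ℝ)) * qq Q * 4 / δ),
    eventually_ge_atTop 1] with d h1 h2 hd1
  intro a ha hdens
  obtain ⟨L, hL⟩ : ∃ L, L = Real.log (d : ℝ) := ⟨_, rfl⟩
  obtain ⟨s, hs⟩ : ∃ s, s = dens Q a d := ⟨_, rfl⟩
  obtain ⟨M, hM⟩ : ∃ M, M = mc c Q a d := ⟨_, rfl⟩
  rw [← hL] at h1 h2
  rw [← hM]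
  have hd0 : (0 : ℝ) < d := by exact_mod_cast hd1
  have g1 : 0 ≤ (1 + (Q : ℝ)) * qq Q * 4 / δ := by positivity
  have hL1 : 1 ≤ L := by linarith
  have hM1 := mc_le hc.le hQ hdens
  rw [← hM, ← hL] at hM1
  have hM2 : c * L ^ 2 < ((M : ℝ) + 1) * s := by
    have : c * L ^ 2 / s < M + 1 := by
      rw [hM, hL, hs]
      exact Nat.lt_floor_add_one _
    rw [div_lt_iff₀ (by rw [hs]; exact hdens)] at this
    exact this
  have hs1 : s ≤ qq Q := by rw [hs]; exact dens_le hQ a d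
  refine (free_le hA hQ ha (by rw [← hL]; linarith) (by rw [← hL]; linarith) (M := M)).trans ?_
  rw [Real.rpow_def_of_pos hd0, Real.exp_le_exp, ← hL, ← hs]
  obtain ⟨y, hy⟩ : ∃ y, y = Real.log (d * ((M : ℝ) + 1)) := ⟨_, rfl⟩
  rw [← hy]
  have hM0 : (0 : ℝ) ≤ M := Nat.cast_nonneg M
  have hy1 : y ≤ (1 + θ) * L := by
    rw [hy, Real.log_mul hd0.ne' (by positivity), ← hL]
    have e1 : (M : ℝ) + 1 ≤ (d : ℝ) ^ θ := by
      refine le_trans ?_ h1
      have : (1 : ℝ) ≤ L ^ 2 := one_le_pow₀ hL1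
      nlinarith
    have e2 : Real.log ((M : ℝ) + 1) ≤ θ * L := by
      rw [hL, ← Real.log_rpow hd0]
      exact Real.log_le_log (by positivity) e1
    linarith
  have hy0 : 0 < y := by
    rw [hy]
    have : Real.log (d : ℝ) ≤ Real.log (d * ((M : ℝ) + 1)) := Real.log_le_log hd0 (by nlinarith)
    rw [← hL] at this
    linarith
  have e1 : (c - δ) * L ≤ ((M : ℝ) - Q) * s / y := by
    rw [le_div_iff₀ hy0]
    have e2 : (c - δ) * L * y ≤ (c - δ) * L * ((1 + θ) * L) :=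
      mul_le_mul_of_nonneg_left hy1 (mul_nonneg (by linarith) (by linarith))
    have e3 : (c - δ) * (1 + θ) ≤ c - δ * 3 / 4 := by nlinarith
    have e4 : (1 + (Q : ℝ)) * s ≤ δ * 3 / 4 * L ^ 2 := by
      have e5 : (1 + (Q : ℝ)) * s ≤ (1 + Q) * qq Q := mul_le_mul_of_nonneg_left hs1 (by linarith)
      have e6 : δ / 4 * ((1 + (Q : ℝ)) * qq Q * 4 / δ) = (1 + (Q : ℝ)) * qq Q := by field_simp
      have e7 : δ / 4 * ((1 + (Q : ℝ)) * qq Q * 4 / δ) ≤ δ / 4 * L := mul_le_mul_of_nonneg_left (by linarith) (by positivity)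
      have e8 : L ≤ L ^ 2 := by nlinarith
      nlinarith
    have e5 : (c - δ) * L * ((1 + θ) * L) ≤ (c - δ * 3 / 4) * L ^ 2 := by
      have e6 : (c - δ) * L * ((1 + θ) * L) = ((c - δ) * (1 + θ)) * L ^ 2 := by ring
      rw [e6]
      exact mul_le_mul_of_nonneg_right e3 (by positivity)
    nlinarith
  linarith

theorem le_prob (hA : IsModel μ (level Q) A) (hQ : 1 ≤ Q) {c δ : ℝ} (hc : 0 < c) (hδ : 0 < δ) :
    ∀ᶠ d : ℕ in atTop, ∀ a : ℕ, (d : ℝ) / 2 ≤ a → 0 < dens Q a d →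
      (d : ℝ) ^ (-(c + δ)) ≤ μ.real (free A (cls a d (mc c Q a d))) := by
  have hq := qq_pos hQ
  have hQ0 : (0 : ℝ) < Q := by exact_mod_cast hQ
  obtain ⟨K, hK⟩ : ∃ K, K = (1 + (Q : ℝ)) * qq Q := ⟨_, rfl⟩
  have hT : Tendsto (fun L : ℝ => (1 + 2 * (qq Q / (L - Real.log 2))) * ((c + K / L ^ 2) * (L / (L - Real.log 2))))
      atTop (nhds ((1 + 2 * 0) * ((c + 0) * 1))) := by
    have t0 : Tendsto (fun L : ℝ => L - Real.log 2) atTop atTop := tendsto_atTop_add_const_right _ _ tendsto_id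
    have t1 : Tendsto (fun L : ℝ => qq Q / (L - Real.log 2)) atTop (nhds 0) := t0.const_div_atTop _
    have t2 : Tendsto (fun L : ℝ => K / L ^ 2) atTop (nhds 0) := (tendsto_pow_atTop (by norm_num)).const_div_atTop _
    have t3 : Tendsto (fun L : ℝ => L / (L - Real.log 2)) atTop (nhds 1) := by
      have t4 : Tendsto (fun L : ℝ => 1 + Real.log 2 / (L - Real.log 2)) atTop (nhds (1 + 0)) :=
        (t0.const_div_atTop _).const_add 1
      rw [add_zero] at t4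
      refine t4.congr' ?_
      filter_upwards [t0.eventually_gt_atTop 0] with L hL
      field_simp
      ring
    exact ((t1.const_mul 2).const_add 1).mul ((t2.const_add c).mul t3)
  have hT' : ∀ᶠ L : ℝ in atTop, (1 + 2 * (qq Q / (L - Real.log 2))) * ((c + K / L ^ 2) * (L / (L - Real.log 2))) ≤ c + δ := by
    refine hT.eventually_le_const ?_
    linarith
  filter_upwards [hl.eventually hT', hl.eventually_ge_atTop (2 * qq Q + 2), eventually_ge_atTop 1] with d h1 h2 hd1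
  intro a ha hdens
  have hd0 : (0 : ℝ) < d := by exact_mod_cast hd1
  obtain ⟨L, hL⟩ : ∃ L, L = Real.log (d : ℝ) := ⟨_, rfl⟩
  obtain ⟨s, hs⟩ : ∃ s, s = dens Q a d := ⟨_, rfl⟩
  obtain ⟨M, hM⟩ : ∃ M, M = mc c Q a d := ⟨_, rfl⟩
  rw [← hL] at h1 h2
  rw [← hM]
  have hlog2 := Real.log_two_lt_d9
  have hx : Real.log ((d : ℝ) / 2) = L - Real.log 2 := by rw [Real.log_div hd0.ne' (by norm_num), hL]
  refine le_trans ?_ (le_free hA hQ (M := M) (x := (d : ℝ) / 2) (by positivity) ha hd1 (by rw [hx]; linarith))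
  rw [Real.rpow_def_of_pos hd0, Real.exp_le_exp, ← hL, ← hs, hx]
  obtain ⟨N, hN⟩ : ∃ N, N = L - Real.log 2 := ⟨_, rfl⟩
  rw [← hN] at h1 ⊢
  have hN0 : 0 < N := by linarith
  have hL0 : 0 < L := by linarith
  have hs0 : 0 < s := by rw [hs]; exact hdens
  have hs1 : s ≤ qq Q := by rw [hs]; exact dens_le hQ a d
  have hM1 : (M : ℝ) * s ≤ c * L ^ 2 := by
    have : (M : ℝ) ≤ c * L ^ 2 / s := by
      rw [hM, hL, hs]
      exact Nat.floor_le (by positivity)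
    rw [le_div_iff₀ hs0] at this
    exact this
  have e1 : ((M : ℝ) + 1 + Q) * s / N ≤ (c + K / L ^ 2) * (L / N) * L := by
    have e2 : (c + K / L ^ 2) * (L / N) * L = (c * L ^ 2 + K) / N := by field_simp
    rw [e2]
    apply div_le_div_of_nonneg_right _ hN0.le
    have e3 : (1 + (Q : ℝ)) * s ≤ K := by rw [hK]; exact mul_le_mul_of_nonneg_left hs1 (by linarith)
    nlinarith
  have e2 : 0 ≤ 1 + 2 * (qq Q / N) := by positivity
  have e3 := mul_le_mul_of_nonneg_left e1 e2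
  have e4 := mul_le_mul_of_nonneg_right h1 hL0.le
  have e5 : (1 + 2 * (qq Q / N)) * ((c + K / L ^ 2) * (L / N) * L) =
      (1 + 2 * (qq Q / N)) * ((c + K / L ^ 2) * (L / N)) * L := by ring
  rw [e5] at e3
  linarith

/-- Some class modulo `d` contains no element up to `c d log^2 d / dens`. -/
def Bad (S : Set ℕ) (c : ℝ) (Q d : ℕ) : Prop := ∃ a, a < d ∧ 0 < dens Q a d ∧ ∀ m : ℕ,
  ((a + d * m : ℕ) : ℝ) ≤ c * d * Real.log d ^ 2 / dens Q a d → a + d * m ∉ S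

/-- Some class modulo `d` is free for a long time. -/
def bad' (A : Ω → Set ℕ) (c : ℝ) (Q d : ℕ) : Set Ω :=
  {ω | ∃ a, a < d ∧ 0 < dens Q a d ∧ ω ∈ free A (cls a d (mc c Q a d))}

theorem real_bad' (hA : IsModel μ (level Q) A) (hQ : 1 ≤ Q) {c δ : ℝ} (hc : 0 < c) (hδ : 0 < δ) (hδc : δ < c) :
    ∀ᶠ d : ℕ in atTop, μ.real (bad' A c Q d) ≤ (d : ℝ) ^ (1 - c + δ) := by
  filter_upwards [prob_le hA hQ hc hδ hδc, eventually_ge_atTop 1] with d h1 hd1
  have hd0 : (0 : ℝ) < d := by exact_mod_cast hd1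
  classical
  have h2 : bad' A c Q d ⊆ ⋃ a ∈ (range d).filter (fun a => 0 < dens Q a d), free A (cls a d (mc c Q a d)) := by
    rintro ω ⟨a, ha1, ha2, ha3⟩
    exact Set.mem_biUnion (x := a) (by
      show a ∈ (range d).filter (fun a => 0 < dens Q a d)
      rw [mem_filter, mem_range]
      exact ⟨ha1, ha2⟩) ha3
  refine (measureReal_mono h2 (measure_ne_top _ _)).trans ((measureReal_biUnion_finset_le _ _).trans ?_)
  refine (sum_le_sum (g := fun _ => (d : ℝ) ^ (-(c - δ))) (fun a ha => ?_)).trans ?_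
  · rw [mem_filter, mem_range] at ha
    exact h1 a ha.1 ha.2
  · rw [sum_const, nsmul_eq_mul]
    have h3 : (((range d).filter (fun a => 0 < dens Q a d)).card : ℝ) ≤ d := by
      have := (card_filter_le (range d) (fun a => 0 < dens Q a d))
      rw [card_range] at this
      exact_mod_cast this
    have h4 : (d : ℝ) ^ (1 - c + δ) = d * (d : ℝ) ^ (-(c - δ)) := by
      nth_rewrite 2 [← Real.rpow_one (d : ℝ)]
      rw [← Real.rpow_add hd0]
      congr 1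
      ring
    rw [h4]
    exact mul_le_mul_of_nonneg_right h3 (by positivity)

omit [MeasurableSpace Ω] in
/-- `Bad` implies `bad'` with a smaller constant. -/
theorem bad_imp (hQ : 1 ≤ Q) {c δ : ℝ} (hδ : 0 < δ) : ∀ᶠ d : ℕ in atTop, ∀ ω, Bad (A ω) c Q d →
    0 ≤ c - δ → ω ∈ bad' A (c - δ) Q d := by
  have hq := qq_pos hQ
  filter_upwards [hl.eventually_ge_atTop (qq Q / δ + 1), eventually_ge_atTop 1] with d h1 hd1 ω h2 hcδ
  obtain ⟨a, ha1, ha2, ha3⟩ := h2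
  refine ⟨a, ha1, ha2, fun n hn hnA => ?_⟩
  rw [mem_cls] at hn
  obtain ⟨m, hm, rfl⟩ := hn
  refine ha3 m ?_ hnA
  have hd0 : (0 : ℝ) < d := by exact_mod_cast hd1
  obtain ⟨L, hL⟩ : ∃ L, L = Real.log (d : ℝ) := ⟨_, rfl⟩
  rw [← hL] at h1 ⊢
  have e1 : (m : ℝ) ≤ (c - δ) * L ^ 2 / dens Q a d := by
    have e2 : (mc (c - δ) Q a d : ℝ) ≤ (c - δ) * L ^ 2 / dens Q a d := by
      rw [hL]
      exact Nat.floor_le (by positivity)
    have e3 : (m : ℝ) ≤ mc (c - δ) Q a d := by exact_mod_cast hm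
    linarith
  have e2 : (a : ℝ) ≤ d := by exact_mod_cast ha1.le
  have hg : 0 ≤ qq Q / δ := by positivity
  have hL1 : 1 ≤ L := by linarith
  rw [le_div_iff₀ ha2] at e1 ⊢
  push_cast
  have e3 : dens Q a d ≤ δ * L ^ 2 := by
    have e4 := dens_le hQ a d
    have e5 : δ * (qq Q / δ) = qq Q := by field_simp
    have e6 : δ * (qq Q / δ) ≤ δ * L := mul_le_mul_of_nonneg_left (by linarith) hδ.le
    have e7 : L ≤ L ^ 2 := by nlinarith
    nlinarith
  have e4 : (a : ℝ) * dens Q a d ≤ d * (δ * L ^ 2) := mul_le_mul e2 e3 ha2.le hd0.le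
  have e5 : (d : ℝ) * (m * dens Q a d) ≤ d * ((c - δ) * L ^ 2) := mul_le_mul_of_nonneg_left e1 hd0.le
  nlinarith

/-- **(A): the upper bound for all moduli.** -/
theorem all_moduli (hA : IsModel μ (level Q) A) (hQ : 1 ≤ Q) {ε : ℝ} (hε : 0 < ε) :
    ∀ᵐ ω ∂μ, ∀ᶠ d : ℕ in atTop, ¬ Bad (A ω) (2 + ε) Q d := by
  have hs : Summable (fun d : ℕ => (d : ℝ) ^ (1 - (2 + ε / 2) + ε / 4)) := Real.summable_nat_rpow.2 (by linarith)
  have h1 := real_bad' (μ := μ) (A := A) hA hQ (show 0 < 2 + ε / 2 by linarith) (show 0 < ε / 4 by linarith) (by linarith)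
  filter_upwards [bc hs h1] with ω hω
  filter_upwards [hω, bad_imp (A := A) hQ (c := 2 + ε) (show 0 < ε / 2 by linarith)] with d h2 h3 h4
  apply h2
  have h5 := h3 ω h4 (by linarith)
  rw [show 2 + ε - ε / 2 = 2 + ε / 2 by ring] at h5
  exact h5

/-- The classes in the upper half. -/
noncomputable def up (Q d : ℕ) : Finset ℕ := by
  classical
  exact (Ico (d / 2 + 1) d).filter (fun a => 0 < dens Q a d)

theorem mem_up {Q d a : ℕ} : a ∈ up Q d ↔ d / 2 + 1 ≤ a ∧ a < d ∧ 0 < dens Q a d := by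
  classical
  unfold up
  rw [mem_filter, mem_Ico, and_assoc]

theorem up_half {Q d a : ℕ} (h : a ∈ up Q d) : (d : ℝ) / 2 ≤ a := by
  rw [mem_up] at h
  have h1 : d ≤ 2 * a := by omega
  have h2 : (d : ℝ) ≤ 2 * a := by exact_mod_cast h1
  linarith

theorem card_up (hQ : 1 ≤ Q) : ∀ᶠ d : ℕ in atTop, (d : ℝ) / (4 * Q) ≤ (up Q d).card := by
  classical
  have hQ0 : (0 : ℝ) < Q := by exact_mod_cast hQ
  filter_upwards [eventually_ge_atTop (8 * (Q + 2))] with d hd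
  have h1 : (Ico (d / 2 + 1) (d / 2 + 1 + (d - (d / 2 + 1)))).filter (fun a => a % Q = 1 % Q) ⊆ up Q d := by
    intro a ha
    rw [mem_filter, mem_Ico] at ha
    rw [mem_up]
    refine ⟨ha.1.1, by omega, ?_⟩
    have h2 : 1 ≤ ca Q a d := by
      unfold ca
      apply Finset.card_pos.2
      refine ⟨0, ?_⟩
      rw [mem_filter, mem_range]
      refine ⟨by omega, ?_⟩
      rw [mul_zero, add_zero, Nat.coprime_iff_gcd_eq_one]
      have h3 : Nat.gcd a Q = Nat.gcd 1 Q := Nat.ModEq.gcd_eq ha.2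
      rw [h3]
      exact Nat.gcd_one_left Q
    have h3 : (0 : ℝ) < ca Q a d := by exact_mod_cast h2
    have h4 : (0 : ℝ) < Nat.totient Q := by exact_mod_cast Nat.totient_pos.2 hQ
    unfold dens
    positivity
  have h2 := (count_per hQ (fun a => a % Q = 1 % Q) (by
    intro a
    show ((a + Q) % Q = 1 % Q) = (a % Q = 1 % Q)
    rw [Nat.add_mod_right]) (d / 2 + 1) (d - (d / 2 + 1))).1
  have h3 : ((range Q).filter (fun a => a % Q = 1 % Q)).card = 1 := by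
    rw [card_eq_one]
    refine ⟨1 % Q, ?_⟩
    ext a
    rw [mem_filter, mem_range, mem_singleton]
    constructor
    · rintro ⟨h4, h5⟩
      rw [Nat.mod_eq_of_lt h4] at h5
      exact h5
    · rintro rfl
      exact ⟨Nat.mod_lt _ (by omega), Nat.mod_mod _ _⟩
  rw [h3] at h2
  have h4 : (((Ico (d / 2 + 1) (d / 2 + 1 + (d - (d / 2 + 1)))).filter (fun a => a % Q = 1 % Q)).card : ℝ) ≤ (up Q d).card := by
    exact_mod_cast card_le_card h1
  refine le_trans ?_ (h2.trans h4)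
  have h5 : 2 * (d - (d / 2 + 1)) + 2 ≥ d := by omega
  have h6 : (d : ℝ) ≤ 2 * ((d - (d / 2 + 1) : ℕ) : ℝ) + 2 := by exact_mod_cast h5
  have h7 : (8 : ℝ) * (Q + 2) ≤ d := by exact_mod_cast hd
  rw [Nat.cast_one, div_le_iff₀ (by positivity)]
  have h8 : (((d - (d / 2 + 1) : ℕ) : ℝ) - Q) * (1 / Q) * (4 * Q) = (((d - (d / 2 + 1) : ℕ) : ℝ) - Q) * 4 := by
    field_simp
  rw [h8]
  linarith

theorem mod_cls {a d M n : ℕ} (ha : a < d) (hn : n ∈ cls a d M) : n % d = a := by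
  rw [mem_cls] at hn
  obtain ⟨m, _, rfl⟩ := hn
  rw [Nat.add_mul_mod_self_left, Nat.mod_eq_of_lt ha]

theorem F_cls {a d M : ℕ} (ha : a < d) : MeasurableSet[F A {n | n % d = a}] (free A (cls a d M)) :=
  F_free (fun _ hn => mod_cls ha hn)

theorem mod_disjoint {a b d : ℕ} (hab : a ≠ b) : Disjoint {n : ℕ | n % d = a} {n : ℕ | n % d = b} := by
  rw [Set.disjoint_left]
  intro n h1 h2
  exact hab (h1.symm.trans h2)

/-- **(B): the lower bound for all moduli.** -/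
theorem lower_all (hA : IsModel μ (level Q) A) (hQ : 1 ≤ Q) {ε : ℝ} (hε : 0 < ε) (hε1 : ε < 1) :
    ∀ᵐ ω ∂μ, ∀ᶠ d : ℕ in atTop, Bad (A ω) (1 - ε) Q d := by
  classical
  have hQ0 : (0 : ℝ) < Q := by exact_mod_cast hQ
  obtain ⟨B, hB⟩ : ∃ B : ℕ → Set Ω, B = fun (d : ℕ) => ⋂ a ∈ up Q d, (free A (cls a d (mc (1 - ε) Q a d)))ᶜ := ⟨_, rfl⟩
  have hs : Summable (fun x : ℕ => (x : ℝ) ^ (-(2 : ℝ))) := Real.summable_nat_rpow.2 (by norm_num)
  have hbound : ∀ᶠ d : ℕ in atTop, μ.real (B d) ≤ (d : ℝ) ^ (-(2 : ℝ)) := by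
    filter_upwards [le_prob hA hQ (show 0 < 1 - ε by linarith) (show 0 < ε / 2 by linarith), card_up hQ,
      ev_power (8 * Q) 1 (show 0 < ε / 2 by linarith), eventually_ge_atTop 1] with d h1 h2 h3 hd1
    have hd0 : (0 : ℝ) < d := by exact_mod_cast hd1
    have hprod : μ.real (B d) = ∏ a ∈ up Q d, μ.real (free A (cls a d (mc (1 - ε) Q a d)))ᶜ := by
      rw [hB]
      refine indep_many hA (up Q d) (fun a => {n | n % d = a}) (fun a _ b _ hab => mod_disjoint hab) _ (fun a ha => ?_)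
      exact MeasurableSet.compl (F_cls (mem_up.1 ha).2.1)
    obtain ⟨t, ht⟩ : ∃ t : ℝ, t = (d : ℝ) ^ (-(1 - ε + ε / 2)) := ⟨_, rfl⟩
    have hfac : ∀ a ∈ up Q d, μ.real (free A (cls a d (mc (1 - ε) Q a d)))ᶜ ≤ Real.exp (-t) := by
      intro a ha
      rw [measureReal_compl (meas_free hA _), probReal_univ]
      have e1 := h1 a (up_half ha) (mem_up.1 ha).2.2
      rw [← ht] at e1
      have e2 := Real.add_one_le_exp (-t)
      linarith
    rw [hprod]
    refine (Finset.prod_le_prod (fun a _ => measureReal_nonneg) hfac).trans ?_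
    rw [prod_const, ← Real.exp_nat_mul, Real.rpow_def_of_pos hd0, Real.exp_le_exp]
    have ht0 : 0 < t := by rw [ht]; positivity
    have e1 : (d : ℝ) / (4 * Q) * t ≤ (up Q d).card * t := mul_le_mul_of_nonneg_right h2 ht0.le
    have e2 : (d : ℝ) / (4 * Q) * t = (d : ℝ) ^ (ε / 2) / (4 * Q) := by
      rw [div_mul_eq_mul_div]
      congr 1
      rw [ht]
      nth_rewrite 1 [← Real.rpow_one (d : ℝ)]
      rw [← Real.rpow_add hd0]
      congr 1
      ring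
    have e3 : 2 * Real.log (d : ℝ) ≤ (d : ℝ) ^ (ε / 2) / (4 * Q) := by
      rw [le_div_iff₀ (by positivity)]
      rw [pow_one] at h3
      linarith
    nlinarith
  filter_upwards [bc hs hbound] with ω hω
  filter_upwards [hω] with d hd
  rw [hB] at hd
  have hd' : ¬ ∀ a ∈ up Q d, ω ∈ (free A (cls a d (mc (1 - ε) Q a d)))ᶜ := fun hcon => hd (Set.mem_iInter₂.2 hcon)
  push Not at hd'
  obtain ⟨a, ha, h1⟩ := hd'
  rw [Set.mem_compl_iff, not_not] at h1
  rw [mem_up] at ha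
  refine ⟨a, ha.2.1, ha.2.2, fun m hm => ?_⟩
  refine h1 _ (mem_cls.2 ⟨m, ?_, rfl⟩)
  unfold mc
  have hd0 : (0 : ℝ) < d := by
    have : 0 < d := by omega
    exact_mod_cast this
  apply Nat.le_floor
  rw [le_div_iff₀ ha.2.2] at hm ⊢
  push_cast at hm
  have e1 : (0 : ℝ) ≤ (a : ℝ) * dens Q a d := mul_nonneg (Nat.cast_nonneg _) ha.2.2.le
  have e2 : (d : ℝ) * ((m : ℝ) * dens Q a d) ≤ d * ((1 - ε) * Real.log d ^ 2) := by nlinarith
  exact le_of_mul_le_mul_left e2 hd0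

end Pool.Agent.Q120.GM
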