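import Pool.Agent.H38.LR.T3997.Q120.GM.Basic

/-!
# Independence of events determined by disjoint sets, and a summable Borel-Cantelli lemma
-/

set_option autoImplicit false

namespace Pool.Agent.Q120.GM

open Finset MeasureTheory ProbabilityTheory Filter

variable {Ω : Type*} [MeasurableSpace Ω] {μ : Measure Ω} [IsProbabilityMeasure μ] {ι : Type*} {p : ι → ℝ}
  {A : Ω → Set ι}

omit [MeasurableSpace Ω] in
theorem F_mono {S T : Set ι} (h : S ⊆ T) : F A S ≤ F A T := biSup_mono h

theorem indep_many (hA : IsModel μ p A) {κ : Type*} [DecidableEq κ] (I : Finset κ) (S : κ → Set ι)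
    (hd : ∀ i ∈ I, ∀ j ∈ I, i ≠ j → Disjoint (S i) (S j)) (E : κ → Set Ω)
    (hE : ∀ i ∈ I, MeasurableSet[F A (S i)] (E i)) : μ.real (⋂ i ∈ I, E i) = ∏ i ∈ I, μ.real (E i) := by
  induction I using Finset.induction_on with
  | empty => simp
  | insert a I ha ih =>
    rw [prod_insert ha, ← ih (fun i hi j hj => hd i (mem_insert_of_mem hi) j (mem_insert_of_mem hj))
      (fun i hi => hE i (mem_insert_of_mem hi))]
    have h1 : (⋂ i ∈ insert a I, E i) = E a ∩ ⋂ i ∈ I, E i := by
      ext ω
      simp
    rw [h1]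
    refine indep_real hA (S := S a) (T := ⋃ i ∈ I, S i) ?_ (hE a (mem_insert_self _ _)) ?_
    · rw [Set.disjoint_iUnion₂_right]
      intro i hi
      refine hd a (mem_insert_self _ _) i (mem_insert_of_mem hi) ?_
      rintro rfl
      exact ha hi
    · refine Finset.measurableSet_biInter I (fun i hi => ?_)
      exact F_mono (Set.subset_biUnion_of_mem (u := S) hi) _ (hE i (mem_insert_of_mem hi))

theorem bc {B : ℕ → Set Ω} {g : ℕ → ℝ} (hg : Summable g) (h : ∀ᶠ n in atTop, μ.real (B n) ≤ g n) :
    ∀ᵐ ω ∂μ, ∀ᶠ n in atTop, ω ∉ B n := by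
  apply ae_eventually_notMem
  obtain ⟨N, hN⟩ := eventually_atTop.1 h
  have h1 : ∀ n, μ (B n) ≤ ENNReal.ofReal ((if N ≤ n then g n else 0) + (if n < N then 1 else 0)) := by
    intro n
    by_cases hn : N ≤ n
    · rw [if_pos hn, if_neg (by omega), add_zero]
      have h2 := hN n hn
      rw [← ofReal_measureReal (measure_ne_top _ _)]
      exact ENNReal.ofReal_le_ofReal h2
    · rw [if_neg hn, if_pos (by omega), zero_add, ENNReal.ofReal_one]
      exact prob_le_one
  refine ne_top_of_le_ne_top ?_ (ENNReal.tsum_le_tsum h1)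
  have h2 : Summable (fun n => (if N ≤ n then g n else 0) + (if n < N then (1 : ℝ) else 0)) := by
    refine Summable.add ?_ ?_
    · refine Summable.of_norm_bounded (g := fun n => |g n|) hg.abs (fun n => ?_)
      split_ifs
      · exact le_of_eq (Real.norm_eq_abs _)
      · simp
    · refine summable_of_ne_finset_zero (s := range N) (fun n hn => ?_)
      rw [mem_range] at hn
      rw [if_neg hn]
  exact h2.tsum_ofReal_ne_top

end Pool.Agent.Q120.GM
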