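import Pool.Agent.H38.LR.T3997.Q120.GM.Exists
import Pool.Agent.H38.LR.T3997.Q120.GM.Indep
import Pool.Agent.H38.LR.T3997.Q120.AD.Main

/-!
# The sieved models: densities and probabilities of tuples
-/

set_option autoImplicit false

namespace Pool.Agent.Q120.GM

open Finset MeasureTheory ProbabilityTheory Filter Pool.Agent.Q120.AD

/-- All elements of `n + H` are coprime to `Q`. -/
def Good (Q : ℕ) (H : Finset ℕ) (n : ℕ) : Prop := ∀ h ∈ H, (n + h).Coprime Q

instance (Q : ℕ) (H : Finset ℕ) : DecidablePred (Good Q H) := fun n => by unfold Good; infer_instance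

/-- The number of residue classes modulo `Q` for which all elements of `n + H` are coprime to `Q`. -/
def cc (Q : ℕ) (H : Finset ℕ) : ℕ := ((range Q).filter (Good Q H)).card

/-- The singular series at level `Q`. -/
noncomputable def sing (Q : ℕ) (H : Finset ℕ) : ℝ :=
  (cc Q H : ℝ) / Q * ((Q : ℝ) / Nat.totient Q) ^ H.card

/-- The translate. -/
def tl (n : ℕ) (H : Finset ℕ) : Finset ℕ := H.image (fun h => n + h)

theorem mem_tl {n m : ℕ} {H : Finset ℕ} : m ∈ tl n H ↔ ∃ h ∈ H, m = n + h := by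
  unfold tl
  rw [mem_image]
  constructor
  · rintro ⟨h, h1, h2⟩
    exact ⟨h, h1, h2.symm⟩
  · rintro ⟨h, h1, h2⟩
    exact ⟨h, h1, h2.symm⟩

theorem card_tl (n : ℕ) (H : Finset ℕ) : (tl n H).card = H.card :=
  card_image_of_injective _ (add_right_injective n)

theorem prod_tl (n : ℕ) (H : Finset ℕ) (f : ℕ → ℝ) : ∏ m ∈ tl n H, f m = ∏ h ∈ H, f (n + h) :=
  prod_image (fun _ _ _ _ h => add_right_injective n h)

theorem good_periodic (Q : ℕ) (H : Finset ℕ) : Function.Periodic (Good Q H) Q := by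
  intro n
  unfold Good
  rw [eq_iff_iff]
  refine forall₂_congr (fun h _ => ?_)
  rw [show n + Q + h = (n + h) + Q by ring, Nat.coprime_add_self_left]

theorem count_block (Q : ℕ) (H : Finset ℕ) (a : ℕ) : ((Ico a (a + Q)).filter (Good Q H)).card = cc Q H := by
  rw [Nat.filter_Ico_card_eq_of_periodic _ _ _ (good_periodic Q H), Nat.count_eq_card_filter_range]
  rfl

theorem count_blocks (Q : ℕ) (H : Finset ℕ) (a m : ℕ) :
    ((Ico a (a + m * Q)).filter (Good Q H)).card = m * cc Q H := by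
  induction m with
  | zero => simp
  | succ m ih =>
    have h1 : Ico a (a + (m + 1) * Q) = Ico a (a + m * Q) ∪ Ico (a + m * Q) (a + m * Q + Q) := by
      rw [Ico_union_Ico_eq_Ico (by omega) (by omega)]
      congr 1
      ring
    rw [h1, filter_union, card_union_of_disjoint, ih, count_block]
    · ring
    · exact (Ico_disjoint_Ico_consecutive _ _ _).mono (filter_subset _ _) (filter_subset _ _)

theorem count_bounds {Q : ℕ} (hQ : 1 ≤ Q) (H : Finset ℕ) (a w : ℕ) :
    w / Q * cc Q H ≤ ((Ico a (a + w)).filter (Good Q H)).card ∧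
      ((Ico a (a + w)).filter (Good Q H)).card ≤ (w / Q + 1) * cc Q H := by
  have h1 := Nat.div_mul_le_self w Q
  have h2 : w < (w / Q + 1) * Q := by
    have := Nat.lt_div_mul_add (a := w) (b := Q) (by omega)
    linarith [this, show (w / Q + 1) * Q = w / Q * Q + Q by ring]
  constructor
  · rw [← count_blocks Q H a]
    apply card_le_card
    apply filter_subset_filter
    exact Ico_subset_Ico_right (by omega)
  · rw [← count_blocks Q H a]
    apply card_le_card
    apply filter_subset_filter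
    exact Ico_subset_Ico_right (by omega)

/-- The count of good integers in an interval. -/
theorem count_real {Q : ℕ} (hQ : 1 ≤ Q) (H : Finset ℕ) (a w : ℕ) :
    ((w : ℝ) - Q) * ((cc Q H : ℝ) / Q) ≤ (((Ico a (a + w)).filter (Good Q H)).card : ℝ) ∧
      (((Ico a (a + w)).filter (Good Q H)).card : ℝ) ≤ ((w : ℝ) + Q) * ((cc Q H : ℝ) / Q) := by
  obtain ⟨h1, h2⟩ := count_bounds hQ H a w
  have hQ0 : (0 : ℝ) < Q := by exact_mod_cast hQ
  have h1' : ((w / Q : ℕ) : ℝ) * cc Q H ≤ (((Ico a (a + w)).filter (Good Q H)).card : ℝ) := by exact_mod_cast h1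
  have h2' : (((Ico a (a + w)).filter (Good Q H)).card : ℝ) ≤ (((w / Q : ℕ) : ℝ) + 1) * cc Q H := by exact_mod_cast h2
  have h3 : ((w / Q : ℕ) : ℝ) ≤ w / Q := Nat.cast_div_le
  have h4 : (w : ℝ) / Q < ((w / Q : ℕ) : ℝ) + 1 := by
    rw [div_lt_iff₀ hQ0]
    have := Nat.lt_div_mul_add (a := w) (b := Q) (by omega)
    have h5 : (w : ℝ) < ((w / Q * Q + Q : ℕ) : ℝ) := by exact_mod_cast this
    push_cast at h5
    linarith
  have hc : (0 : ℝ) ≤ cc Q H := Nat.cast_nonneg _
  constructor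
  · refine le_trans ?_ h1'
    have h5 : ((w : ℝ) - Q) * ((cc Q H : ℝ) / Q) = ((w : ℝ) / Q - 1) * cc Q H := by field_simp
    rw [h5]
    apply mul_le_mul_of_nonneg_right _ hc
    linarith
  · refine h2'.trans ?_
    have h5 : ((w : ℝ) + Q) * ((cc Q H : ℝ) / Q) = ((w : ℝ) / Q + 1) * cc Q H := by field_simp
    rw [h5]
    apply mul_le_mul_of_nonneg_right _ hc
    linarith

/-- `q = Q / φ(Q)`. -/
noncomputable def qq (Q : ℕ) : ℝ := (Q : ℝ) / Nat.totient Q

theorem qq_pos {Q : ℕ} (hQ : 1 ≤ Q) : 0 < qq Q := by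
  unfold qq
  have h1 : 0 < Nat.totient Q := Nat.totient_pos.2 hQ
  have h2 : (0 : ℝ) < Nat.totient Q := by exact_mod_cast h1
  have h3 : (0 : ℝ) < Q := by exact_mod_cast hQ
  positivity

theorem sing_eq (Q : ℕ) (H : Finset ℕ) : sing Q H = (cc Q H : ℝ) / Q * qq Q ^ H.card := rfl

theorem level_le {Q m : ℕ} {x : ℝ} (hx : 0 < Real.log x) (hx0 : 0 < x) (hm : x ≤ m) : level Q m ≤ qq Q / Real.log x := by
  have h1 : Real.log x ≤ Real.log m := Real.log_le_log hx0 hm
  have hq : 0 ≤ qq Q := by unfold qq; positivity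
  unfold level
  split_ifs with h
  · refine (min_le_right _ _).trans ?_
    exact div_le_div_of_nonneg_left hq hx h1
  · positivity

theorem le_level {Q m : ℕ} {x y : ℝ} (hx : qq Q ≤ Real.log x) (hx1 : 0 < Real.log x) (hx0 : 0 < x) (hm : x ≤ m)
    (hm2 : (m : ℝ) ≤ y) (hc : m.Coprime Q) : qq Q / Real.log y ≤ level Q m := by
  have h1 : Real.log x ≤ Real.log m := Real.log_le_log hx0 hm
  have h2 : Real.log m ≤ Real.log y := Real.log_le_log (by linarith) hm2
  have hq : 0 ≤ qq Q := by unfold qq; positivity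
  unfold level
  rw [if_pos hc]
  refine le_min ?_ ?_
  · rw [div_le_one (by linarith)]
    linarith
  · exact div_le_div_of_nonneg_left hq (by linarith) h2

theorem tuple_le {Q n : ℕ} {H : Finset ℕ} {x : ℝ} (hx : 0 < Real.log x) (hx0 : 0 < x) (hn : x ≤ n) :
    ∏ m ∈ tl n H, level Q m ≤ (qq Q / Real.log x) ^ H.card := by
  rw [← card_tl n H, ← prod_const]
  refine Finset.prod_le_prod (fun m _ => level_nonneg Q m) (fun m hm => ?_)
  rw [mem_tl] at hm
  obtain ⟨h, _, rfl⟩ := hm
  refine level_le hx hx0 ?_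
  push_cast
  have : (0 : ℝ) ≤ h := Nat.cast_nonneg h
  linarith

theorem tuple_zero {Q n : ℕ} {H : Finset ℕ} (hn : ¬ Good Q H n) : ∏ m ∈ tl n H, level Q m = 0 := by
  unfold Good at hn
  push Not at hn
  obtain ⟨h, hh, h2⟩ := hn
  refine prod_eq_zero (i := n + h) (mem_tl.2 ⟨h, hh, rfl⟩) ?_
  unfold level
  rw [if_neg h2]

theorem le_tuple {Q n : ℕ} {H : Finset ℕ} {x y : ℝ} (hx : qq Q ≤ Real.log x) (hx1 : 0 < Real.log x) (hx0 : 0 < x)
    (hn : x ≤ n) (hy : ∀ h ∈ H, (n : ℝ) + h ≤ y) (hg : Good Q H n) :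
    (qq Q / Real.log y) ^ H.card ≤ ∏ m ∈ tl n H, level Q m := by
  rw [prod_tl, ← prod_const]
  apply Finset.prod_le_prod
  · intro h hh
    have h1 := hy h hh
    have h2 : (0 : ℝ) ≤ h := Nat.cast_nonneg h
    have h3 : Real.log x ≤ Real.log y := Real.log_le_log hx0 (by linarith)
    have hq : 0 ≤ qq Q := by unfold qq; positivity
    have h4 : 0 < Real.log y := by linarith
    positivity
  · intro h hh
    have h2 : (0 : ℝ) ≤ h := Nat.cast_nonneg h
    refine le_level hx hx1 hx0 ?_ ?_ (hg h hh)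
    · push_cast
      linarith
    · push_cast
      exact hy h hh

theorem sum_tuple_le {Q : ℕ} (hQ : 1 ≤ Q) {H : Finset ℕ} {x : ℝ} (hx : 0 < Real.log x) (hx0 : 0 < x) {a w : ℕ}
    (ha : x ≤ a) : ∑ n ∈ Ico a (a + w), ∏ m ∈ tl n H, level Q m ≤ ((w : ℝ) + Q) * sing Q H / Real.log x ^ H.card := by
  have h1 : ∑ n ∈ Ico a (a + w), ∏ m ∈ tl n H, level Q m =
      ∑ n ∈ (Ico a (a + w)).filter (Good Q H), ∏ m ∈ tl n H, level Q m := by
    refine (sum_filter_of_ne (fun n _ hne => ?_)).symm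
    by_contra hcon
    exact hne (tuple_zero hcon)
  rw [h1]
  have h2 : ∀ n ∈ (Ico a (a + w)).filter (Good Q H), ∏ m ∈ tl n H, level Q m ≤ (qq Q / Real.log x) ^ H.card := by
    intro n hn
    rw [mem_filter, mem_Ico] at hn
    refine tuple_le hx hx0 (ha.trans ?_)
    exact_mod_cast hn.1.1
  refine (sum_le_sum h2).trans ?_
  rw [sum_const, nsmul_eq_mul]
  have h3 := (count_real hQ H a w).2
  have hq := qq_pos hQ
  have h4 : (((Ico a (a + w)).filter (Good Q H)).card : ℝ) * (qq Q / Real.log x) ^ H.card ≤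
      ((w : ℝ) + Q) * ((cc Q H : ℝ) / Q) * (qq Q / Real.log x) ^ H.card := mul_le_mul_of_nonneg_right h3 (by positivity)
  refine h4.trans (le_of_eq ?_)
  rw [sing_eq, div_pow]
  field_simp

theorem le_sum_tuple {Q : ℕ} (hQ : 1 ≤ Q) {H : Finset ℕ} {x y : ℝ} (hx : qq Q ≤ Real.log x) (hx1 : 0 < Real.log x)
    (hx0 : 0 < x) {a w : ℕ} (ha : x ≤ a) (hy : ∀ h ∈ H, (a : ℝ) + w + h ≤ y) (hxy : x ≤ y) :
    ((w : ℝ) - Q) * sing Q H / Real.log y ^ H.card ≤ ∑ n ∈ Ico a (a + w), ∏ m ∈ tl n H, level Q m := by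
  have h1 : ∑ n ∈ Ico a (a + w), ∏ m ∈ tl n H, level Q m =
      ∑ n ∈ (Ico a (a + w)).filter (Good Q H), ∏ m ∈ tl n H, level Q m := by
    refine (sum_filter_of_ne (fun n _ hne => ?_)).symm
    by_contra hcon
    exact hne (tuple_zero hcon)
  rw [h1]
  have h2 : ∀ n ∈ (Ico a (a + w)).filter (Good Q H), (qq Q / Real.log y) ^ H.card ≤ ∏ m ∈ tl n H, level Q m := by
    intro n hn
    rw [mem_filter, mem_Ico] at hn
    have h3 : (a : ℝ) ≤ n := by exact_mod_cast hn.1.1
    have h4 : (n : ℝ) ≤ a + w := by exact_mod_cast hn.1.2.le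
    refine le_tuple hx hx1 hx0 (ha.trans h3) (fun h hh => ?_) hn.2
    have := hy h hh
    linarith
  refine le_trans ?_ (sum_le_sum h2)
  rw [sum_const, nsmul_eq_mul]
  have h3 := (count_real hQ H a w).1
  have hq := qq_pos hQ
  have hly : 0 < Real.log y := lt_of_lt_of_le hx1 (Real.log_le_log hx0 hxy)
  have h4 : ((w : ℝ) - Q) * ((cc Q H : ℝ) / Q) * (qq Q / Real.log y) ^ H.card ≤
      (((Ico a (a + w)).filter (Good Q H)).card : ℝ) * (qq Q / Real.log y) ^ H.card :=
    mul_le_mul_of_nonneg_right h3 (by positivity)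
  refine le_trans (le_of_eq ?_) h4
  rw [sing_eq, div_pow]
  field_simp

/-- The correction term in Janson's inequality. -/
theorem delta_le {Q : ℕ} {H : Finset ℕ} {x : ℝ} (hx : qq Q ≤ Real.log x) (hx1 : 0 < Real.log x)
    (hx0 : 0 < x) {a w : ℕ} (ha : x ≤ a) :
    ∑ j ∈ Ico a (a + w), ∑ l ∈ Ico a (a + w) with l ≠ j ∧ ¬ Disjoint (tl l H) (tl j H),
      ∏ i ∈ tl l H ∪ tl j H, level Q i ≤ (w : ℝ) * ((H.card : ℝ) ^ 2 * (qq Q / Real.log x) ^ (H.card + 1)) := by
  have hq : 0 ≤ qq Q := by unfold qq; positivity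
  obtain ⟨t, ht⟩ : ∃ t : ℝ, t = qq Q / Real.log x := ⟨_, rfl⟩
  have ht0 : 0 ≤ t := by rw [ht]; positivity
  have ht1 : t ≤ 1 := by rw [ht, div_le_one hx1]; exact hx
  have h1 : ∀ j ∈ Ico a (a + w), ∑ l ∈ Ico a (a + w) with l ≠ j ∧ ¬ Disjoint (tl l H) (tl j H),
      ∏ i ∈ tl l H ∪ tl j H, level Q i ≤ (H.card : ℝ) ^ 2 * t ^ (H.card + 1) := by
    intro j hj
    have h2 : ∀ l ∈ (Ico a (a + w)).filter (fun l => l ≠ j ∧ ¬ Disjoint (tl l H) (tl j H)),
        ∏ i ∈ tl l H ∪ tl j H, level Q i ≤ t ^ (H.card + 1) := by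
      intro l hl
      rw [mem_filter, mem_Ico] at hl
      rw [mem_Ico] at hj
      have h3 : ∀ i ∈ tl l H ∪ tl j H, level Q i ≤ t := by
        intro i hi
        rw [ht]
        refine level_le hx1 hx0 (ha.trans ?_)
        rw [mem_union, mem_tl, mem_tl] at hi
        rcases hi with ⟨h, _, rfl⟩ | ⟨h, _, rfl⟩
        · exact_mod_cast hl.1.1.trans (Nat.le_add_right _ _)
        · exact_mod_cast hj.1.trans (Nat.le_add_right _ _)
      refine (Finset.prod_le_prod (fun i _ => level_nonneg Q i) h3).trans ?_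
      rw [prod_const]
      apply pow_le_pow_of_le_one ht0 ht1
      -- the union has more elements
      have h4 : (tl j H).card < (tl l H ∪ tl j H).card := by
        apply card_lt_card
        refine ⟨subset_union_right, fun hsub => ?_⟩
        have h5 : tl l H ⊆ tl j H := subset_union_left.trans hsub
        have h6 : tl l H = tl j H := eq_of_subset_of_card_le h5 (by rw [card_tl, card_tl])
        have h7 : H.Nonempty := by
          rw [Finset.nonempty_iff_ne_empty]
          rintro rfl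
          apply hl.2.2
          simp [tl]
        have h8 : (tl l H).min' (h7.image _) = l + H.min' h7 := by
          apply le_antisymm
          · exact min'_le _ _ (mem_tl.2 ⟨_, min'_mem _ _, rfl⟩)
          · apply le_min'
            intro y hy
            rw [mem_tl] at hy
            obtain ⟨h, hh, rfl⟩ := hy
            have := min'_le H h hh
            omega
        have h9 : (tl j H).min' (h7.image _) = j + H.min' h7 := by
          apply le_antisymm
          · exact min'_le _ _ (mem_tl.2 ⟨_, min'_mem _ _, rfl⟩)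
          · apply le_min'
            intro y hy
            rw [mem_tl] at hy
            obtain ⟨h, hh, rfl⟩ := hy
            have := min'_le H h hh
            omega
        have h10 : (tl l H).min' (h7.image _) = (tl j H).min' (h7.image _) := by
          simp only [h6]
        rw [h8, h9] at h10
        exact hl.2.1 (by omega)
      rw [card_tl] at h4
      exact h4
    refine (sum_le_sum h2).trans ?_
    rw [sum_const, nsmul_eq_mul]
    apply mul_le_mul_of_nonneg_right _ (by positivity)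
    have h3 : ((Ico a (a + w)).filter (fun l => l ≠ j ∧ ¬ Disjoint (tl l H) (tl j H))).card ≤ H.card * H.card := by
      rw [← card_product]
      have h4 : (Ico a (a + w)).filter (fun l => l ≠ j ∧ ¬ Disjoint (tl l H) (tl j H)) ⊆
          (H ×ˢ H).image (fun q : ℕ × ℕ => j + q.1 - q.2) := by
        intro l hl
        rw [mem_filter, Finset.not_disjoint_iff] at hl
        obtain ⟨_, _, i, hi1, hi2⟩ := hl
        rw [mem_tl] at hi1 hi2
        obtain ⟨b, hb, e1⟩ := hi1
        obtain ⟨c, hc, e2⟩ := hi2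
        rw [mem_image]
        exact ⟨(c, b), mem_product.2 ⟨hc, hb⟩, by show j + c - b = l; omega⟩
      exact (card_le_card h4).trans card_image_le
    have h4 : (((Ico a (a + w)).filter (fun l => l ≠ j ∧ ¬ Disjoint (tl l H) (tl j H))).card : ℝ) ≤ H.card * H.card := by
      exact_mod_cast h3
    rw [sq]
    exact h4
  refine (sum_le_sum h1).trans (le_of_eq ?_)
  rw [sum_const, nsmul_eq_mul, Nat.card_Ico, ← ht]
  congr 1
  norm_num

end Pool.Agent.Q120.GM
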